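import Pool.Agent.Lib.MP_b83a82_al.Main

namespace MP_b83a82_al.Old.QuasiLinear

/-- The group `X` has an elementary abelian section of order `q ^ r`: there are subgroups
`K ⊴ H ≤ X` such that `H / K` is abelian, has exponent dividing `q` and order `q ^ r`. -/
def HasSection (X : Type*) [Group X] (q r : ℕ) : Prop :=
  ∃ H : Subgroup X, ∃ K : Subgroup H, ∃ _ : K.Normal,
    Nat.card (H ⧸ K) = q ^ r ∧ (∀ x y : H ⧸ K, x * y = y * x) ∧ ∀ x : H ⧸ K, x ^ q = 1

/-- The sectional rank of a finite group `X`: the largest `r` such that `X` has a section that is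
elementary abelian of order `q ^ r` for some prime `q`. -/
noncomputable def sectionalRank (X : Type*) [Group X] : ℕ :=
  sSup {r | ∃ q : ℕ, q.Prime ∧ HasSection X q r}

theorem bdd (X : Type*) [Group X] [Finite X] :
    BddAbove {r | ∃ q : ℕ, q.Prime ∧ HasSection X q r} := by
  refine ⟨Nat.card X, ?_⟩
  rintro r ⟨q, hq, H, K, _, hcard, _, _⟩
  have h1 : r < q ^ r := Nat.lt_pow_self hq.one_lt
  have h2 : Nat.card (H ⧸ K) ≤ Nat.card H := by
    rw [← Subgroup.index_eq_card]
    exact Nat.le_of_dvd Nat.card_pos K.index_dvd_card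
  have h3 : Nat.card H ≤ Nat.card X := Subgroup.card_le_card_group H
  omega

theorem nonempty (X : Type*) [Group X] :
    {r | ∃ q : ℕ, q.Prime ∧ HasSection X q r}.Nonempty := by
  refine ⟨0, 2, Nat.prime_two, ⊥, ⊤, inferInstance, ?_, ?_, ?_⟩
  · rw [← Subgroup.index_eq_card, Subgroup.index_top, pow_zero]
  · intro x y
    have : Subsingleton ((⊥ : Subgroup X) ⧸ (⊤ : Subgroup (⊥ : Subgroup X))) :=
      QuotientGroup.subsingleton_quotient_top
    exact Subsingleton.elim _ _
  · intro x
    have : Subsingleton ((⊥ : Subgroup X) ⧸ (⊤ : Subgroup (⊥ : Subgroup X))) :=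
      QuotientGroup.subsingleton_quotient_top
    exact Subsingleton.elim _ _

open scoped commutatorElement

theorem rkLE {G : Type*} [Group G] [Finite G] {p : ℕ} [hp : Fact p.Prime] (hG : IsPGroup p G)
    (A : Subgroup G) : _root_.MP_b83a82_al.RkLE p A (sectionalRank A) := by
  intro K H hHA hS
  obtain ⟨hKH, hpow, hcom⟩ := hS
  obtain ⟨r, hr⟩ := _root_.MP_b83a82_al.relIndex_eq_pow hG K H
  rw [hr]
  refine Nat.pow_le_pow_right hp.out.pos ?_
  have hn : ((K.subgroupOf A).subgroupOf (H.subgroupOf A)).Normal := by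
    constructor
    rintro ⟨⟨k, hk1⟩, hk2⟩ hk ⟨⟨h, hh1⟩, hh2⟩
    rw [Subgroup.mem_subgroupOf, Subgroup.mem_subgroupOf] at hk ⊢
    rw [Subgroup.mem_subgroupOf] at hk2 hh2
    change h * k * h⁻¹ ∈ K
    have e : h * k * h⁻¹ = ⁅h, k⁆ * k := by simp only [commutatorElement_def]; group
    rw [e]
    exact K.mul_mem (hcom h hh2 k hk2) hk
  refine le_csSup (bdd A) ⟨p, hp.out, H.subgroupOf A, (K.subgroupOf A).subgroupOf (H.subgroupOf A),
    hn, ?_, ?_, ?_⟩
  · rw [← Subgroup.index_eq_card, ← hr]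
    exact Subgroup.relIndex_subgroupOf hHA
  · intro x y
    induction x using QuotientGroup.induction_on with
    | H x =>
    induction y using QuotientGroup.induction_on with
    | H y =>
      change (QuotientGroup.mk (x * y) : _ ⧸ _) = QuotientGroup.mk (y * x)
      rw [QuotientGroup.eq, Subgroup.mem_subgroupOf, Subgroup.mem_subgroupOf]
      have hx : ((x : A) : G) ∈ H := Subgroup.mem_subgroupOf.mp x.2
      have hy : ((y : A) : G) ∈ H := Subgroup.mem_subgroupOf.mp y.2
      have e : ((((x * y)⁻¹ * (y * x) : H.subgroupOf A) : A) : G) =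
          ⁅(((y : A) : G))⁻¹, (((x : A) : G))⁻¹⁆ := by
        simp only [commutatorElement_def, Subgroup.coe_mul, Subgroup.coe_inv]
        group
      rw [e]
      exact hcom _ (H.inv_mem hy) _ (H.inv_mem hx)
  · intro x
    induction x using QuotientGroup.induction_on with
    | H x =>
      change (QuotientGroup.mk (x ^ p) : _ ⧸ _) = 1
      rw [QuotientGroup.eq_one_iff, Subgroup.mem_subgroupOf, Subgroup.mem_subgroupOf]
      exact hpow _ (Subgroup.mem_subgroupOf.mp x.2)

theorem le_of_rkLE {G : Type*} [Group G] [Finite G] {p : ℕ} [hp : Fact p.Prime]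
    (hG : IsPGroup p G) {N : ℕ} (h : _root_.MP_b83a82_al.RkLE p (⊤ : Subgroup G) N) :
    sectionalRank G ≤ N := by
  refine csSup_le (nonempty G) ?_
  rintro r ⟨q, hq, H, K, hK, hcard, hab, hexp⟩
  rcases Nat.eq_zero_or_pos r with hr0 | hr0
  · omega
  have hqp : q = p := by
    obtain ⟨n, hn⟩ := IsPGroup.iff_card.mp hG
    have h1 : q ∣ Nat.card G := by
      refine dvd_trans (dvd_pow_self q hr0.ne') ?_
      rw [← hcard, ← Subgroup.index_eq_card]
      exact dvd_trans K.index_dvd_card (Subgroup.card_subgroup_dvd_card H)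
    rw [hn] at h1
    exact (Nat.prime_dvd_prime_iff_eq hq hp.out).mp (hq.dvd_of_dvd_pow h1)
  subst hqp
  have hsub : (K.map H.subtype).subgroupOf H = K := by
    rw [Subgroup.subgroupOf]
    exact Subgroup.comap_map_eq_self_of_injective H.subtype_injective K
  have hrel : (K.map H.subtype).relIndex H = q ^ r := by
    rw [Subgroup.relIndex, hsub, Subgroup.index_eq_card, hcard]
  have hS : _root_.MP_b83a82_al.ElSec q (K.map H.subtype) H := by
    refine ⟨Subgroup.map_subtype_le K, ?_, ?_⟩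
    · intro x hx
      refine ⟨(⟨x, hx⟩ : H) ^ q, ?_, by simp⟩
      rw [SetLike.mem_coe, ← QuotientGroup.eq_one_iff, QuotientGroup.mk_pow]
      exact hexp _
    · intro x hx y hy
      refine ⟨⁅(⟨x, hx⟩ : H), (⟨y, hy⟩ : H)⁆, ?_, by
        simp only [commutatorElement_def, map_mul, map_inv, Subgroup.coe_subtype]⟩
      rw [SetLike.mem_coe, ← QuotientGroup.eq_one_iff]
      have := hab (QuotientGroup.mk (⟨x, hx⟩ : H)) (QuotientGroup.mk (⟨y, hy⟩ : H))
      change (QuotientGroup.mk (⟨x, hx⟩ : H) : H ⧸ K) * QuotientGroup.mk (⟨y, hy⟩ : H) *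
        (QuotientGroup.mk (⟨x, hx⟩ : H))⁻¹ * (QuotientGroup.mk (⟨y, hy⟩ : H))⁻¹ = 1
      rw [this]
      group
  have h2 := h _ _ le_top hS
  rw [hrel] at h2
  exact (Nat.pow_le_pow_iff_right hq.one_lt).mp h2

/-- **Quasi-linear bound.** If a finite `p`-group `G = A B` is a product of two subgroups, then
`r(G) ≤ 2 max + min (7 + 4 ⌈log₂ max⌉)`, where max and min are the larger and the smaller of the
sectional ranks of `A` and `B`. -/
theorem result (p : ℕ) [Fact p.Prime] (G : Type*) [Group G] [Finite G] (hG : IsPGroup p G)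
    (A B : Subgroup G) (hAB : ∀ g : G, ∃ a ∈ A, ∃ b ∈ B, a * b = g) :
    sectionalRank G ≤ 2 * max (sectionalRank A) (sectionalRank B) +
      min (sectionalRank A) (sectionalRank B) *
        (7 + 4 * Nat.clog 2 (max (sectionalRank A) (sectionalRank B))) := by
  refine le_of_rkLE hG ?_
  rcases le_total (sectionalRank A) (sectionalRank B) with h | h
  · rw [max_eq_right h, min_eq_left h]
    exact _root_.MP_b83a82_al.main_rk hG hAB h (rkLE hG A) (rkLE hG B)
  · rw [max_eq_left h, min_eq_right h]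
    refine _root_.MP_b83a82_al.main_rk hG (A := B) (B := A) ?_ h (rkLE hG B) (rkLE hG A)
    intro g
    obtain ⟨a, ha, b, hb, hab⟩ := hAB g⁻¹
    refine ⟨b⁻¹, B.inv_mem hb, a⁻¹, A.inv_mem ha, ?_⟩
    rw [← mul_inv_rev, hab, inv_inv]

end MP_b83a82_al.Old.QuasiLinear
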